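import Pool.Agent.Helper83.Cc.ExA2
import Pool.Agent.Helper59.Cc.ExB

/-! # Existence of the correlation measure (project CC of helper26, not a result) -/

set_option autoImplicit false

namespace Pool.Agent.Helper83.Cc

open Pool.Agent.Helper26.Cc

/-- **EX** -/
theorem ex : S_Ex := ex_of fun K C m hf hs Φ h => Pool.Agent.Helper59.Cc.exB K C m hf hs Φ h

end Pool.Agent.Helper83.Cc
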