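import Pool.Agent.Helper83.Cc.Asm
import Pool.Agent.Helper29.Cc.Step

/-! # The separation (project CC of helper26, not a result) -/

set_option autoImplicit false

open MeasureTheory
open scoped NNReal

namespace Pool.Agent.Helper83.Cc

open Pool.Agent.Helper26.Cc

theorem stp (h1 : S_Two) (h2 : S_Big) : S_Step := by
  intro d c R hR ρ hρ D hD hb h f g hC y l hy hl hP
  exact Pool.Agent.Helper29.Cc.step h1 h2 hR ρ D hD hb hC hy hl hP

/-- **SEP** -/
theorem sep_fin (h1 : S_Two) (h2 : S_Big) (h3 : S_Iso) (h4 : S_Dia) : S_Sep :=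
  sep (stp h1 h2) h3 h4

end Pool.Agent.Helper83.Cc
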