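import Pool.Agent.Helper83.Cc.Sep2
import Pool.Agent.Helper29.Cc.Rem

/-! # The annealed separation: assembly (project CC of helper26, not a result) -/

set_option autoImplicit false

open MeasureTheory Filter Topology ProbabilityTheory
open scoped BigOperators ENNReal NNReal InnerProductSpace ComplexConjugate

namespace Pool.Agent.Helper83.Cc

open Pool.Agent.H5R2.NB Pool.Agent.Helper26.Nb Pool.Agent.Helper26.Cm Pool.Agent.Helper26.Dj
  Pool.Agent.Helper26.Rg Pool.Agent.Helper26.Cc Pool.Agent.Helper29.Cc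
open Pool.Agent.TH369.AN (Rz pt ro cp fc pt_sa cp_sa rz_eq rz_uniq rz_norm)
open Pool.Agent.TH369.MU (zk ep)

/-- the annealed separation after removing the sites of `l` -/
def Pl (d : ℕ) (c : ℝ) {R : ℝ} (hR : 0 ≤ R) (ρ : Measure ℝ) (f g : ℝ → ℝ) (l : List (Site d)) :
    Prop :=
  ∀ L η : ℝ, 0 < η → ∃ δ : ℝ, 0 < δ ∧ ∀ k : ℕ,
    ((volume.restrict (Set.Icc (-L) L)).prod (Measure.infinitePi fun _ : Site d => ρ))
      {p : ℝ × (Site d → ℝ) |
        ‖wf (rem l (TC c hR (Function.update p.2 0 0))) (dl 0) (zc f g p.1 k) -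
          wf (rem l (TC c hR (Function.update p.2 0 0))) (dl 0) (zk p.1 k)‖ < δ} ≤
      ENNReal.ofReal η

/-- STEP: one site -/
def S_Step : Prop :=
  ∀ (d : ℕ) (c : ℝ) (R : ℝ) (hR : 0 ≤ R) (ρ : Measure ℝ), IsProbabilityMeasure ρ →
    ∀ D : ℝ≥0, ρ ≤ D • (volume : Measure ℝ) → (∀ᵐ κ ∂ρ, |κ| ≤ R) →
      ∀ (h f g : ℝ → ℝ), Cur h f g → ∀ (y : Site d) (l : List (Site d)), y ≠ 0 → y ∉ l →
        Pl d c hR ρ f g (y :: l) → Pl d c hR ρ f g l

/-- A2: the Weyl function without the neighbours -/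
def S_Iso : Prop :=
  ∀ (d : ℕ) (c : ℝ) (R : ℝ) (hR : 0 ≤ R) (V : Site d → ℝ) (l : List (Site d)), (0 : Site d) ∉ l →
    (∀ i : Fin d, Pi.single i 1 ∈ l ∧ -Pi.single i 1 ∈ l) → ∀ z : ℂ, z.im ≠ 0 →
      wf (rem l (TC c hR (Function.update V 0 0))) (dl 0) z = z

/-- A2': the curve is rarely close to the diagonal -/
def S_Dia : Prop :=
  ∀ (h f g : ℝ → ℝ), Cur h f g → ∀ L η : ℝ, 0 < η → ∃ δ : ℝ, 0 < δ ∧ ∀ k : ℕ,
    volume {E : ℝ | E ∈ Set.Icc (-L) L ∧ ‖zc f g E k - zk E k‖ < δ} ≤ ENNReal.ofReal η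

lemma zc_im_ne {h f g : ℝ → ℝ} (hC : Cur h f g) (E : ℝ) (k : ℕ) : (zc f g E k).im ≠ 0 := by
  obtain ⟨m, M, hm, hb⟩ := hC.bd
  have hg : g E ≠ 0 := by
    intro h0
    have := (hb E).1
    rw [h0, abs_zero] at this
    linarith
  have he : ep k ≠ 0 := by unfold ep; positivity
  unfold zc
  simp only [Complex.add_im, Complex.ofReal_im, Complex.mul_im, Complex.I_im, Complex.I_re,
    Complex.ofReal_re, mul_one, mul_zero, zero_add, add_zero]
  exact mul_ne_zero hg he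

lemma zk_im_ne' (E : ℝ) (k : ℕ) : (zk E k).im ≠ 0 := by
  have he : ep k ≠ 0 := by unfold ep; positivity
  unfold zk
  simp only [Complex.add_im, Complex.ofReal_im, Complex.mul_im, Complex.I_im, Complex.I_re,
    Complex.ofReal_re, mul_one, mul_zero, zero_add, add_zero]
  exact he

theorem base (h1 : S_Iso) (h2 : S_Dia) (d : ℕ) (c : ℝ) (R : ℝ) (hR : 0 ≤ R) (ρ : Measure ℝ)
    (hρ : IsProbabilityMeasure ρ) (h f g : ℝ → ℝ) (hC : Cur h f g) (l : List (Site d))
    (hl0 : (0 : Site d) ∉ l) (hl : ∀ i : Fin d, Pi.single i 1 ∈ l ∧ -Pi.single i 1 ∈ l) :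
    Pl d c hR ρ f g l := by
  intro L η hη
  obtain ⟨δ, hδ, hk⟩ := h2 h f g hC L η hη
  refine ⟨δ, hδ, fun k => ?_⟩
  have e : {p : ℝ × (Site d → ℝ) |
        ‖wf (rem l (TC c hR (Function.update p.2 0 0))) (dl 0) (zc f g p.1 k) -
          wf (rem l (TC c hR (Function.update p.2 0 0))) (dl 0) (zk p.1 k)‖ < δ} =
      {E : ℝ | ‖zc f g E k - zk E k‖ < δ} ×ˢ (Set.univ : Set (Site d → ℝ)) := by
    ext p
    simp only [Set.mem_ofPred_eq, Set.mem_prod, Set.mem_univ, and_true]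
    rw [h1 d c R hR p.2 l hl0 hl _ (zc_im_ne hC _ _), h1 d c R hR p.2 l hl0 hl _ (zk_im_ne' _ _)]
  rw [e, Measure.prod_prod, measure_univ, mul_one]
  refine le_trans ?_ (hk k)
  rw [Measure.restrict_apply' measurableSet_Icc]
  apply measure_mono
  rintro E ⟨hE1, hE2⟩
  exact ⟨hE2, hE1⟩

/-- the neighbours of the origin -/
noncomputable def nb (d : ℕ) : List (Site d) := by
  classical
  exact ((Finset.univ.image fun i : Fin d => (Pi.single i 1 : Site d)) ∪
    (Finset.univ.image fun i : Fin d => (-Pi.single i 1 : Site d))).toList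

lemma nb_nodup (d : ℕ) : (nb d).Nodup := by
  unfold nb
  exact Finset.nodup_toList _

lemma mem_nb {d : ℕ} {y : Site d} :
    y ∈ nb d ↔ (∃ i : Fin d, Pi.single i 1 = y) ∨ ∃ i : Fin d, -Pi.single i 1 = y := by
  classical
  unfold nb
  simp

lemma zero_nb (d : ℕ) : (0 : Site d) ∉ nb d := by
  rw [mem_nb]
  rintro (⟨i, hi⟩ | ⟨i, hi⟩)
  · have := congrFun hi i
    simp at this
  · have := congrFun hi i
    simp at this

/-- **the annealed separation** from the step and the two base facts -/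
theorem asm (h0 : S_Step) (h1 : S_Iso) (h2 : S_Dia) : S_Ann := by
  intro d c R hR ρ hρ D hD hb h f g hC
  have key : ∀ l : List (Site d), l.Nodup → (0 : Site d) ∉ l → Pl d c hR ρ f g l →
      Pl d c hR ρ f g [] := by
    intro l
    induction l with
    | nil => exact fun _ _ h => h
    | cons y l ih =>
      intro hn h0l hP
      rw [List.nodup_cons] at hn
      rw [List.mem_cons, not_or] at h0l
      exact ih hn.2 h0l.2 (h0 d c R hR ρ hρ D hD hb h f g hC y l (Ne.symm h0l.1) hn.1 hP)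
  exact key (nb d) (nb_nodup d) (zero_nb d)
    (base h1 h2 d c R hR ρ hρ h f g hC (nb d) (zero_nb d)
      fun i => ⟨mem_nb.2 (Or.inl ⟨i, rfl⟩), mem_nb.2 (Or.inr ⟨i, rfl⟩)⟩)

/-- **SEP** from the step and the two base facts -/
theorem sep (h0 : S_Step) (h1 : S_Iso) (h2 : S_Dia) : S_Sep := sep2 (asm h0 h1 h2)

end Pool.Agent.Helper83.Cc
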