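import Pool.Agent.Helper59.Cc.Fun
import Pool.Agent.Helper90.Cc.CE
import Pool.Agent.Helper26.Cc.Stm4

/-! # Existence of the correlation measure (project CC of helper26, not a result) -/

set_option autoImplicit false

open MeasureTheory Filter Topology ProbabilityTheory
open scoped BigOperators ENNReal NNReal InnerProductSpace ComplexConjugate

namespace Pool.Agent.Helper83.Cc

open Pool.Agent.H5R2.NB Pool.Agent.Helper26.Nb Pool.Agent.Helper26.Cm Pool.Agent.Helper26.Dj
  Pool.Agent.Helper26.Rg Pool.Agent.Helper26.Cc Pool.Agent.Helper59.Cc Pool.Agent.Helper90.Cc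
open Pool.Agent.TH369.AN (Rz pt ro cp fc)
open Pool.Agent.TH369.MU (zk ep)

/-- EXB: compactness -/
def S_ExB : Prop :=
  ∀ (K C : ℝ) (m : ℕ → Measure (ℝ × ℝ)), (∀ n, m n Set.univ ≤ ENNReal.ofReal C) →
    (∀ n, m n (Set.Icc (-K) K ×ˢ Set.Icc (-K) K)ᶜ = 0) → ∀ Φ : ℝ → ℝ → ℂ,
      (∀ s t : ℝ, Tendsto (fun n => ∫ p, Complex.exp (Complex.I * (s * p.1 + t * p.2)) ∂(m n))
        atTop (𝓝 (Φ s t))) →
        ∃ μ : Measure (ℝ × ℝ), IsFiniteMeasure μ ∧
          μ (Set.Icc (-K) K ×ˢ Set.Icc (-K) K)ᶜ = 0 ∧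
          ∀ s t : ℝ, ∫ p, Complex.exp (Complex.I * (s * p.1 + t * p.2)) ∂μ = Φ s t

/-! ### hat functions -/

/-- the hat function at `j / N` -/
noncomputable def hat (N : ℕ) (j : ℤ) (x : ℝ) : ℝ := max 0 (1 - |(N : ℝ) * x - j|)

lemma hat_nonneg (N : ℕ) (j : ℤ) (x : ℝ) : 0 ≤ hat N j x := le_max_left _ _

@[fun_prop]
lemma hat_cont (N : ℕ) (j : ℤ) : Continuous (hat N j) := by
  unfold hat
  fun_prop

lemma hat_zero {N : ℕ} {j : ℤ} {x : ℝ} (h : 1 ≤ |(N : ℝ) * x - j|) : hat N j x = 0 := by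
  unfold hat
  exact max_eq_left (by linarith)

lemma hat_pos {N : ℕ} {j : ℤ} {x : ℝ} (h : |(N : ℝ) * x - j| ≤ 1) :
    hat N j x = 1 - |(N : ℝ) * x - j| := by
  unfold hat
  exact max_eq_right (by linarith)

lemma hat_sum {N : ℕ} {M : ℤ} {x : ℝ} (h : |(N : ℝ) * x| + 1 ≤ M) :
    ∑ j ∈ Finset.Icc (-M) M, hat N j x = 1 := by
  set f : ℤ := ⌊(N : ℝ) * x⌋ with hf
  have h1 : (f : ℝ) ≤ (N : ℝ) * x := Int.floor_le _
  have h2 : (N : ℝ) * x < f + 1 := Int.lt_floor_add_one _
  have h3 := abs_le.1 (show |(N : ℝ) * x| ≤ (M : ℝ) - 1 by linarith)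
  have hfM : f + 1 ≤ M := by
    have : ((f + 1 : ℤ) : ℝ) ≤ M := by
      push_cast
      linarith [h3.2]
    exact_mod_cast this
  have hfM' : -M ≤ f := by
    have : ((-M : ℤ) : ℝ) < ((f + 1 : ℤ) : ℝ) := by
      push_cast
      linarith [h3.1]
    have h4 : -M < f + 1 := by exact_mod_cast this
    omega
  have hsub : ({f, f + 1} : Finset ℤ) ⊆ Finset.Icc (-M) M := by
    intro j hj
    simp only [Finset.mem_insert, Finset.mem_singleton] at hj
    rw [Finset.mem_Icc]
    omega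
  rw [← Finset.sum_subset hsub]
  · rw [Finset.sum_pair (by omega)]
    rw [hat_pos, hat_pos]
    · rw [abs_of_nonneg (by linarith), abs_of_nonpos (by push_cast; linarith)]
      push_cast
      ring
    · push_cast
      rw [abs_le]
      constructor <;> linarith
    · rw [abs_le]
      constructor <;> linarith
  · intro j _ hj
    simp only [Finset.mem_insert, Finset.mem_singleton, not_or] at hj
    apply hat_zero
    rcases lt_or_gt_of_ne hj.1 with h4 | h4
    · have h5 : j + 1 ≤ f := h4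
      have h6 : (j : ℝ) + 1 ≤ f := by exact_mod_cast h5
      rw [abs_of_nonneg (by linarith)]
      linarith
    · have h5 : f + 2 ≤ j := by omega
      have h6 : (f : ℝ) + 2 ≤ j := by exact_mod_cast h5
      rw [abs_of_nonpos (by linarith)]
      linarith

/-- the node -/
noncomputable def nd (N : ℕ) (j : ℤ) : ℝ := (j : ℝ) / N

/-- the trigonometric interpolation -/
noncomputable def tr (N : ℕ) (M : ℤ) (s : ℝ) (x : ℝ) : ℂ :=
  ∑ j ∈ Finset.Icc (-M) M, Complex.exp (Complex.I * (s * nd N j)) * (hat N j x : ℂ)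

lemma tr_cont (N : ℕ) (M : ℤ) (s : ℝ) : Continuous (tr N M s) := by
  unfold tr
  refine continuous_finsetSum _ fun j _ => ?_
  exact continuous_const.mul (Complex.continuous_ofReal.comp (hat_cont N j))

lemma exp_one (r : ℝ) : ‖Complex.exp (Complex.I * r)‖ = 1 := by
  rw [mul_comm]
  exact Complex.norm_exp_ofReal_mul_I r

lemma exp_one' (s x : ℝ) : ‖Complex.exp (Complex.I * (s * x))‖ = 1 := by
  rw [← Complex.ofReal_mul]
  exact exp_one _

lemma tr_le {N : ℕ} {M : ℤ} {x : ℝ} (h : |(N : ℝ) * x| + 1 ≤ M) (s : ℝ) : ‖tr N M s x‖ ≤ 1 := by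
  unfold tr
  refine (norm_sum_le _ _).trans ?_
  rw [← hat_sum h]
  refine Finset.sum_le_sum fun j _ => ?_
  rw [norm_mul, exp_one', one_mul, Complex.norm_real, Real.norm_of_nonneg (hat_nonneg _ _ _)]

lemma exp_sub (a b : ℝ) : ‖Complex.exp (Complex.I * a) - Complex.exp (Complex.I * b)‖ ≤ |a - b| := by
  have e : Complex.exp (Complex.I * a) - Complex.exp (Complex.I * b) =
      Complex.exp (Complex.I * b) * (Complex.exp (Complex.I * ((a - b : ℝ) : ℂ)) - 1) := by
    rw [mul_sub, ← Complex.exp_add, mul_one]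
    congr 2
    push_cast
    ring
  rw [e, norm_mul, exp_one, one_mul]
  have := Real.norm_exp_I_mul_ofReal_sub_one_le (x := a - b)
  rwa [Real.norm_eq_abs] at this

lemma tr_near {N : ℕ} (hN : 0 < N) {M : ℤ} {x : ℝ} (h : |(N : ℝ) * x| + 1 ≤ M) (s : ℝ) :
    ‖tr N M s x - Complex.exp (Complex.I * (s * x))‖ ≤ |s| / N := by
  have hN' : (0 : ℝ) < N := by exact_mod_cast hN
  have e : tr N M s x - Complex.exp (Complex.I * (s * x)) =
      ∑ j ∈ Finset.Icc (-M) M, (Complex.exp (Complex.I * (s * nd N j)) -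
        Complex.exp (Complex.I * (s * x))) * (hat N j x : ℂ) := by
    simp only [sub_mul, Finset.sum_sub_distrib]
    rw [← Finset.mul_sum]
    have : ∑ j ∈ Finset.Icc (-M) M, (hat N j x : ℂ) = 1 := by
      have := hat_sum h
      exact_mod_cast this
    rw [this, mul_one]
    rfl
  rw [e]
  refine (norm_sum_le _ _).trans ?_
  have : |s| / N = ∑ j ∈ Finset.Icc (-M) M, |s| / N * hat N j x := by
    rw [← Finset.mul_sum, hat_sum h, mul_one]
  rw [this]
  refine Finset.sum_le_sum fun j _ => ?_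
  rw [norm_mul, Complex.norm_real, Real.norm_of_nonneg (hat_nonneg _ _ _)]
  by_cases hj : 1 ≤ |(N : ℝ) * x - j|
  · rw [hat_zero hj, mul_zero, mul_zero]
  · refine mul_le_mul_of_nonneg_right ?_ (hat_nonneg _ _ _)
    push Not at hj
    rw [← Complex.ofReal_mul, ← Complex.ofReal_mul]
    refine (exp_sub _ _).trans ?_
    have e2 : s * nd N j - s * x = -(s * (((N : ℝ) * x - j) / N)) := by
      unfold nd
      field_simp
      ring
    rw [e2, abs_neg, abs_mul, abs_div, abs_of_pos hN', div_eq_mul_inv, div_eq_mul_inv]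
    refine mul_le_mul_of_nonneg_left ?_ (abs_nonneg _)
    calc |(N : ℝ) * x - j| * (N : ℝ)⁻¹ ≤ 1 * (N : ℝ)⁻¹ :=
          mul_le_mul_of_nonneg_right hj.le (by positivity)
      _ = _ := one_mul _

/-! ### functions of the operator -/

variable {d : ℕ}

/-- the square root of the hat function -/
noncomputable def ph (N : ℕ) (j : ℤ) (x : ℝ) : ℝ := Real.sqrt (hat N j x)

lemma ph_cont (N : ℕ) (j : ℤ) : Continuous (ph N j) := (hat_cont N j).sqrt

lemma ph_sq (N : ℕ) (j : ℤ) (x : ℝ) : ph N j x * ph N j x = hat N j x :=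
  Real.mul_self_sqrt (hat_nonneg _ _ _)

section gen

variable {X : Type} [NormedAddCommGroup X] [InnerProductSpace ℂ X] [CompleteSpace X]

lemma fc_sa {T : X →L[ℂ] X} (h : ℝ → ℝ) : IsSelfAdjoint (fc h T) := by
  unfold fc
  exact cfc_predicate h T

lemma fc_ph_sq {T : X →L[ℂ] X} (hT : IsSelfAdjoint T) (N : ℕ) (j : ℤ) :
    fc (ph N j) T * fc (ph N j) T = cfc (fun z : ℂ => (hat N j z.re : ℂ)) T := by
  unfold fc
  rw [← cfc_mul (ph N j) (ph N j) T (ph_cont N j).continuousOn (ph_cont N j).continuousOn,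
    cfc_real_eq_complex _ hT]
  refine cfc_congr fun z _ => ?_
  simp only [ph_sq]

lemma sum_cfc' {T : X →L[ℂ] X} (hT : IsSelfAdjoint T) (N : ℕ) (s : Finset ℤ) (c : ℤ → ℂ) :
    ∑ j ∈ s, c j • (fc (ph N j) T * fc (ph N j) T) =
      cfc (fun z : ℂ => ∑ j ∈ s, c j * (hat N j z.re : ℂ)) T := by
  classical
  have hn : IsStarNormal T := hT.isStarNormal
  have hc : ∀ j : ℤ, Continuous fun z : ℂ => (hat N j z.re : ℂ) := fun j =>
    Complex.continuous_ofReal.comp ((hat_cont N j).comp Complex.continuous_re)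
  induction s using Finset.induction_on with
  | empty =>
    simp only [Finset.sum_empty]
    exact (cfc_const_zero ℂ T).symm
  | insert a s ha ih =>
    have h1 : (fun z : ℂ => ∑ j ∈ insert a s, c j * (hat N j z.re : ℂ)) =
        fun z : ℂ => c a * (hat N a z.re : ℂ) + ∑ j ∈ s, c j * (hat N j z.re : ℂ) := by
      funext z
      rw [Finset.sum_insert ha]
    rw [Finset.sum_insert ha, ih, h1, fc_ph_sq hT,
      ← cfc_const_mul _ (fun z : ℂ => (hat N a z.re : ℂ)) T (hc a).continuousOn]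
    refine (cfc_add T (fun z : ℂ => c a * (hat N a z.re : ℂ))
      (fun z : ℂ => ∑ j ∈ s, c j * (hat N j z.re : ℂ)) ?_ ?_).symm
    · exact (continuous_const.mul (hc a)).continuousOn
    · exact (continuous_finsetSum _ fun j _ => continuous_const.mul (hc j)).continuousOn

lemma sum_cfc {T : X →L[ℂ] X} (hT : IsSelfAdjoint T) (N : ℕ) (M : ℤ) (s : ℝ) :
    ∑ j ∈ Finset.Icc (-M) M, Complex.exp (Complex.I * (s * nd N j)) •
      (fc (ph N j) T * fc (ph N j) T) = cfc (fun z : ℂ => tr N M s z.re) T :=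
  sum_cfc' hT N (Finset.Icc (-M) M) fun j => Complex.exp (Complex.I * (s * nd N j))

end gen

end Pool.Agent.Helper83.Cc
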