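import Pool.Agent.Helper83.Cc.ExA

/-! # Existence of the correlation measure (project CC of helper26, not a result) -/

set_option autoImplicit false

open MeasureTheory Filter Topology ProbabilityTheory
open scoped BigOperators ENNReal NNReal InnerProductSpace ComplexConjugate

namespace Pool.Agent.Helper83.Cc

open Pool.Agent.H5R2.NB Pool.Agent.Helper26.Nb Pool.Agent.Helper26.Cm Pool.Agent.Helper26.Dj
  Pool.Agent.Helper26.Rg Pool.Agent.Helper26.Cc Pool.Agent.Helper59.Cc Pool.Agent.Helper90.Cc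
open Pool.Agent.TH369.AN (Rz pt ro cp fc)
open Pool.Agent.TH369.MU (zk ep)

variable {d : ℕ}

lemma int_inner {X Y : (Site d → ℝ) → L2 (Site d) →L[ℂ] L2 (Site d)} (hX : Cv X) (hY : Cv Y)
    (ρ : Measure ℝ) [IsProbabilityMeasure ρ] :
    Integrable (fun V => ⟪X V (dl 0), Y V (dl 0)⟫_ℂ)
      (Measure.infinitePi fun _ : Site d => ρ) := by
  obtain ⟨M, hM⟩ := hX.bdd
  obtain ⟨M', hM'⟩ := hY.bdd
  have hM0 : 0 ≤ M := (norm_nonneg _).trans (hM 0)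
  refine Integrable.of_bound (C := M * M') ((hX.sm 0).inner (hY.sm 0)).aestronglyMeasurable
    (Eventually.of_forall fun V => ?_)
  refine (norm_inner_le_norm _ _).trans ?_
  exact mul_le_mul (Cv.norm_dl_le hM V 0) (Cv.norm_dl_le hM' V 0) (norm_nonneg _) hM0

lemma sa_inner {A : L2 (Site d) →L[ℂ] L2 (Site d)} (hA : IsSelfAdjoint A) (x y : L2 (Site d)) :
    ⟪A x, y⟫_ℂ = ⟪x, A y⟫_ℂ := by
  have h := ContinuousLinearMap.adjoint_inner_left A y x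
  rw [hA.adjoint_eq] at h
  exact h

/-- the weights -/
lemma weight {X A B : (Site d → ℝ) → L2 (Site d) →L[ℂ] L2 (Site d)} (hX : Cv X) (hA : Cv A)
    (hB : Cv B) (sA : ∀ V, IsSelfAdjoint (A V)) (sB : ∀ V, IsSelfAdjoint (B V)) (ρ : Measure ℝ)
    [IsProbabilityMeasure ρ] :
    ∫ V, ⟪X V (dl 0), A V (A V (X V (B V (B V (dl 0)))))⟫_ℂ
        ∂(Measure.infinitePi fun _ : Site d => ρ) =
      ∫ V, ⟪A V (X V (B V (dl 0))), A V (X V (B V (dl 0)))⟫_ℂ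
        ∂(Measure.infinitePi fun _ : Site d => ρ) := by
  have h1 := Cv.tr hX (hA.comp (hA.comp (hX.comp (hB.comp hB)))) ρ
  have h2 := Cv.tr (hX.comp hB) (hA.comp (hA.comp (hX.comp hB))) ρ
  simp only [ContinuousLinearMap.comp_apply, ContinuousLinearMap.adjoint_comp,
    (sA _).adjoint_eq, (sB _).adjoint_eq] at h1 h2
  rw [h1]
  simp only [sa_inner (sA _)]
  rw [h2]
  refine integral_congr_ae (Eventually.of_forall fun V => ?_)
  simp only
  rw [sa_inner (sB V)]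

/-- the operators -/
noncomputable def Aj (c : ℝ) {R : ℝ} (hR : 0 ≤ R) (N : ℕ) (j : ℤ) (V : Site d → ℝ) :
    L2 (Site d) →L[ℂ] L2 (Site d) := fc (ph N j) (TC c hR V)

lemma Aj_cv (c : ℝ) {R : ℝ} (hR : 0 ≤ R) (N : ℕ) (j : ℤ) : Cv (d := d) fun V => Aj c hR N j V :=
  ((pc_TC c hR).cfc' (fun _ => TV_sa _ _ _ _) (ph N j) (ph_cont N j)).cv

lemma Aj_sa (c : ℝ) {R : ℝ} (hR : 0 ≤ R) (N : ℕ) (j : ℤ) (V : Site d → ℝ) :
    IsSelfAdjoint (Aj c hR N j V) := fc_sa _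

/-- the sum of the operators -/
noncomputable def Sn (c : ℝ) {R : ℝ} (hR : 0 ≤ R) (N : ℕ) (M : ℤ) (s : ℝ) (V : Site d → ℝ) :
    L2 (Site d) →L[ℂ] L2 (Site d) := cfc (fun z : ℂ => tr N M s z.re) (TC c hR V)

lemma Sn_eq (c : ℝ) {R : ℝ} (hR : 0 ≤ R) (N : ℕ) (M : ℤ) (s : ℝ) (V : Site d → ℝ)
    (x : L2 (Site d)) :
    Sn c hR N M s V x = ∑ j ∈ Finset.Icc (-M) M,
      Complex.exp (Complex.I * (s * nd N j)) • Aj c hR N j V (Aj c hR N j V x) := by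
  unfold Sn
  rw [← sum_cfc (TC_sa c hR V) N M s, sum_apply]
  rfl

/-- the weight -/
noncomputable def wt (c : ℝ) {R : ℝ} (hR : 0 ≤ R) (ρ : Measure ℝ)
    (X : (Site d → ℝ) → L2 (Site d) →L[ℂ] L2 (Site d)) (N : ℕ) (q : ℤ × ℤ) : ℝ :=
  ∫ V, ‖Aj c hR N q.1 V (X V (Aj c hR N q.2 V (dl 0)))‖ ^ 2
    ∂(Measure.infinitePi fun _ : Site d => ρ)

lemma wt_nonneg (c : ℝ) {R : ℝ} (hR : 0 ≤ R) (ρ : Measure ℝ)
    (X : (Site d → ℝ) → L2 (Site d) →L[ℂ] L2 (Site d)) (N : ℕ) (q : ℤ × ℤ) :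
    0 ≤ wt c hR ρ X N q := integral_nonneg fun _ => by positivity

lemma wt_eq (c : ℝ) {R : ℝ} (hR : 0 ≤ R) (ρ : Measure ℝ) [IsProbabilityMeasure ρ]
    {X : (Site d → ℝ) → L2 (Site d) →L[ℂ] L2 (Site d)} (hX : Cv X) (N : ℕ) (q : ℤ × ℤ) :
    (wt c hR ρ X N q : ℂ) = ∫ V, ⟪X V (dl 0), Aj c hR N q.1 V (Aj c hR N q.1 V
      (X V (Aj c hR N q.2 V (Aj c hR N q.2 V (dl 0)))))⟫_ℂ
        ∂(Measure.infinitePi fun _ : Site d => ρ) := by
  rw [weight hX (Aj_cv c hR N q.1) (Aj_cv c hR N q.2) (Aj_sa c hR N q.1) (Aj_sa c hR N q.2) ρ]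
  unfold wt
  rw [← integral_complex_ofReal]
  refine integral_congr_ae (Eventually.of_forall fun V => ?_)
  simp only
  rw [inner_self_eq_norm_sq_to_K]
  norm_cast

/-- the approximate measures -/
noncomputable def mn (c : ℝ) {R : ℝ} (hR : 0 ≤ R) (ρ : Measure ℝ)
    (X : (Site d → ℝ) → L2 (Site d) →L[ℂ] L2 (Site d)) (N : ℕ) (M : ℤ) : Measure (ℝ × ℝ) :=
  ∑ q ∈ Finset.Icc (-M) M ×ˢ Finset.Icc (-M) M,
    ENNReal.ofReal (wt c hR ρ X N q) • Measure.dirac (nd N q.1, nd N q.2)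

lemma mn_int (c : ℝ) {R : ℝ} (hR : 0 ≤ R) (ρ : Measure ℝ)
    (X : (Site d → ℝ) → L2 (Site d) →L[ℂ] L2 (Site d)) (N : ℕ) (M : ℤ) (F : ℝ × ℝ → ℂ) :
    ∫ p, F p ∂(mn c hR ρ X N M) = ∑ q ∈ Finset.Icc (-M) M ×ˢ Finset.Icc (-M) M,
      (wt c hR ρ X N q : ℂ) * F (nd N q.1, nd N q.2) := by
  unfold mn
  rw [integral_finsetSum_measure]
  · refine Finset.sum_congr rfl fun q _ => ?_
    rw [integral_smul_measure, integral_dirac, ENNReal.toReal_ofReal (wt_nonneg _ _ _ _ _ _)]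
    rfl
  · intro q _
    refine Integrable.smul_measure ?_ ENNReal.ofReal_ne_top
    exact integrable_dirac (by simp)

lemma mn_fourier (c : ℝ) {R : ℝ} (hR : 0 ≤ R) (ρ : Measure ℝ) [IsProbabilityMeasure ρ]
    {X : (Site d → ℝ) → L2 (Site d) →L[ℂ] L2 (Site d)} (hX : Cv X) (N : ℕ) (M : ℤ) (s t : ℝ) :
    Integrable (fun V => ⟪X V (dl 0), Sn c hR N M s V (X V (Sn c hR N M t V (dl 0)))⟫_ℂ)
      (Measure.infinitePi fun _ : Site d => ρ) ∧
    ∫ p, Complex.exp (Complex.I * (s * p.1 + t * p.2)) ∂(mn c hR ρ X N M) =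
      ∫ V, ⟪X V (dl 0), Sn c hR N M s V (X V (Sn c hR N M t V (dl 0)))⟫_ℂ
        ∂(Measure.infinitePi fun _ : Site d => ρ) := by
  have hcv : ∀ q : ℤ × ℤ, Cv fun V => (Aj c hR N q.1 V).comp ((Aj c hR N q.1 V).comp
      ((X V).comp ((Aj c hR N q.2 V).comp (Aj c hR N q.2 V)))) := fun q =>
    (Aj_cv c hR N q.1).comp ((Aj_cv c hR N q.1).comp (hX.comp
      ((Aj_cv c hR N q.2).comp (Aj_cv c hR N q.2))))
  have hint : ∀ q : ℤ × ℤ, Integrable (fun V => ⟪X V (dl 0), Aj c hR N q.1 V (Aj c hR N q.1 V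
      (X V (Aj c hR N q.2 V (Aj c hR N q.2 V (dl 0)))))⟫_ℂ)
      (Measure.infinitePi fun _ : Site d => ρ) := fun q => int_inner hX (hcv q) ρ
  have e : (fun V => ⟪X V (dl 0), Sn c hR N M s V (X V (Sn c hR N M t V (dl 0)))⟫_ℂ) =
      fun V => ∑ q ∈ Finset.Icc (-M) M ×ˢ Finset.Icc (-M) M,
        (Complex.exp (Complex.I * (s * nd N q.1)) * Complex.exp (Complex.I * (t * nd N q.2))) *
          ⟪X V (dl 0), Aj c hR N q.1 V (Aj c hR N q.1 V
            (X V (Aj c hR N q.2 V (Aj c hR N q.2 V (dl 0)))))⟫_ℂ := by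
    funext V
    rw [Finset.sum_product, Sn_eq, inner_sum]
    refine Finset.sum_congr rfl fun i _ => ?_
    rw [inner_smul_right, Sn_eq]
    simp only [map_sum, map_smul, inner_sum, inner_smul_right, Finset.mul_sum]
    refine Finset.sum_congr rfl fun j _ => ?_
    ring
  constructor
  · rw [e]
    exact integrable_finsetSum _ fun q _ => (hint q).const_mul _
  · rw [e, integral_finsetSum _ fun q _ => (hint q).const_mul _, mn_int]
    refine Finset.sum_congr rfl fun q _ => ?_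
    rw [integral_const_mul, ← wt_eq c hR ρ hX N q, ← Complex.exp_add, mul_comm]
    congr 2
    ring

lemma Sn_le (c : ℝ) {R : ℝ} (hR : 0 ≤ R) {N : ℕ} {M : ℤ}
    (hM : ∀ x : ℝ, |x| ≤ ‖Kp d c‖ + R → |(N : ℝ) * x| + 1 ≤ M) (s : ℝ) (V : Site d → ℝ) :
    ‖Sn c hR N M s V‖ ≤ 1 :=
  cfc_le (TC_norm c hR V) (tr N M s) zero_le_one fun x hx => tr_le (hM x hx) s

lemma Sn_near (c : ℝ) {R : ℝ} (hR : 0 ≤ R) {N : ℕ} (hN : 0 < N) {M : ℤ}
    (hM : ∀ x : ℝ, |x| ≤ ‖Kp d c‖ + R → |(N : ℝ) * x| + 1 ≤ M) (s : ℝ) {V : Site d → ℝ}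
    {ev : (Site d → ℝ) → UG (L2 (Site d))} (hev : ∀ V, IsGrp c V (ev V))
    (hV : ∀ x, |V x| ≤ R) (x : L2 (Site d)) :
    ‖Sn c hR N M s V x - (ev V).U (-s) x‖ ≤ |s| / N * ‖x‖ := by
  have h1 := cfc_diff (TC_sa c hR V) (TC_norm c hR V)
    (F := fun x : ℝ => Complex.exp (Complex.I * (s * x))) (G := tr N M s) (by fun_prop)
    (tr_cont N M s) (ε := |s| / N) (by positivity) fun x hx => tr_near hN (hM x hx) s
  have h2 : (ev V).U (-s) x =
      cfc (fun z : ℂ => Complex.exp (Complex.I * (s * (z.re : ℝ)))) (TC c hR V) x := by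
    rw [gen_cfc' (TC_sa c hR V) (gen_TC (hev V) hR hV) x (-s)]
    have e : (fun z : ℂ => Complex.exp (Complex.I * (s * (z.re : ℝ)))) =
        fun z : ℂ => Complex.exp (-(Complex.I * (((-s : ℝ) : ℂ) * (z.re : ℝ)))) := by
      funext z
      congr 1
      push_cast
      ring
    rw [← e]
  rw [h2]
  unfold Sn
  rw [← _root_.sub_apply]
  exact (ContinuousLinearMap.le_opNorm _ _).trans
    (mul_le_mul_of_nonneg_right h1 (norm_nonneg _))

lemma near_inner {a x : L2 (Site d)} (X A B U W : L2 (Site d) →L[ℂ] L2 (Site d)) {C α β : ℝ}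
    (hC : 0 ≤ C) (ha : ‖a‖ ≤ C) (hX : ‖X‖ ≤ C) (hx : ‖x‖ = 1) (hA : ‖A‖ ≤ 1)
    (hW : ∀ y, ‖W y‖ = ‖y‖) (hα : ∀ y, ‖A y - U y‖ ≤ α * ‖y‖) (hβ : ∀ y, ‖B y - W y‖ ≤ β * ‖y‖)
    (hα0 : 0 ≤ α) :
    ‖⟪a, A (X (B x))⟫_ℂ - ⟪a, U (X (W x))⟫_ℂ‖ ≤ C * (C * β + α * C) := by
  have hβ0 : 0 ≤ β := by
    have := (norm_nonneg _).trans (hβ x)
    rwa [hx, mul_one] at this
  rw [← inner_sub_right]
  refine (norm_inner_le_norm _ _).trans ?_
  refine mul_le_mul ha ?_ (norm_nonneg _) hC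
  have e : A (X (B x)) - U (X (W x)) = A (X (B x - W x)) + (A (X (W x)) - U (X (W x))) := by
    rw [map_sub, map_sub]
    abel
  rw [e]
  refine (norm_add_le _ _).trans (add_le_add ?_ ?_)
  · calc ‖A (X (B x - W x))‖ ≤ ‖A‖ * ‖X (B x - W x)‖ := A.le_opNorm _
      _ ≤ 1 * (‖X‖ * ‖B x - W x‖) := by
          gcongr
          exact X.le_opNorm _
      _ ≤ 1 * (C * (β * ‖x‖)) := by
          gcongr
          exact hβ x
      _ = C * β := by rw [hx]; ring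
  · calc ‖A (X (W x)) - U (X (W x))‖ ≤ α * ‖X (W x)‖ := hα _
      _ ≤ α * (‖X‖ * ‖W x‖) := by
          gcongr
          exact X.le_opNorm _
      _ ≤ α * (C * ‖x‖) := by
          rw [hW]
          gcongr
      _ = α * C := by rw [hx, mul_one]

theorem ex_of (hB : S_ExB) : S_Ex := by
  intro d c R hR ρ hρ hρR ev hev X hX
  obtain ⟨C, hC⟩ := hX.bdd
  have hC0 : 0 ≤ C := (norm_nonneg _).trans (hC 0)
  set P : Measure (Site d → ℝ) := Measure.infinitePi fun _ : Site d => ρ with hP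
  have hgood := ae_good (d := d) hρR
  set B : ℝ := ‖Kp d c‖ + R with hBd
  have hB0 : 0 ≤ B := by positivity
  let M : ℕ → ℤ := fun n => ⌈((n + 1 : ℕ) : ℝ) * B⌉ + 1
  have hM : ∀ n, ∀ x : ℝ, |x| ≤ ‖Kp d c‖ + R → |((n + 1 : ℕ) : ℝ) * x| + 1 ≤ M n := by
    intro n x hx
    have h1 : ((n + 1 : ℕ) : ℝ) * B ≤ (⌈((n + 1 : ℕ) : ℝ) * B⌉ : ℝ) := Int.le_ceil _
    have h2 : |((n + 1 : ℕ) : ℝ) * x| ≤ ((n + 1 : ℕ) : ℝ) * B := by
      rw [abs_mul, abs_of_nonneg (by positivity)]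
      exact mul_le_mul_of_nonneg_left hx (by positivity)
    show |((n + 1 : ℕ) : ℝ) * x| + 1 ≤ ((⌈((n + 1 : ℕ) : ℝ) * B⌉ + 1 : ℤ) : ℝ)
    push_cast at h1 h2 ⊢
    linarith
  have hd0 : ‖(dl 0 : L2 (Site d))‖ = 1 := STAT.norm_dl 0
  have hxn : ∀ V, ‖X V (dl 0)‖ ≤ C := fun V => Cv.norm_dl_le hC V 0
  suffices hfin : (∀ n, mn c hR ρ X (n + 1) (M n) Set.univ ≤ ENNReal.ofReal (C * C)) ∧
      (∀ n, mn c hR ρ X (n + 1) (M n)
        (Set.Icc (-(B + 2)) (B + 2) ×ˢ Set.Icc (-(B + 2)) (B + 2))ᶜ = 0) ∧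
      ∀ s t : ℝ, Tendsto (fun n => ∫ p, Complex.exp (Complex.I * (s * p.1 + t * p.2))
        ∂(mn c hR ρ X (n + 1) (M n))) atTop
          (𝓝 (∫ V, ⟪X V (dl 0), (ev V).U (-s) (X V ((ev V).U (-t) (dl 0)))⟫_ℂ ∂P)) by
    obtain ⟨μ, hμ, hμ1, hμ2⟩ := hB (B + 2) (C * C) (fun n => mn c hR ρ X (n + 1) (M n))
      hfin.1 hfin.2.1
      (fun s t => ∫ V, ⟪X V (dl 0), (ev V).U (-s) (X V ((ev V).U (-t) (dl 0)))⟫_ℂ ∂P) hfin.2.2
    exact ⟨μ, hμ, hμ2⟩
  refine ⟨?_, ?_, ?_⟩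
  · -- the mass
    intro n
    have h1 := (mn_fourier c hR ρ hX (n + 1) (M n) 0 0).2
    rw [mn_int] at h1
    have h2 : mn c hR ρ X (n + 1) (M n) Set.univ = ENNReal.ofReal
        (∑ q ∈ Finset.Icc (-M n) (M n) ×ˢ Finset.Icc (-M n) (M n), wt c hR ρ X (n + 1) q) := by
      unfold mn
      rw [Measure.finsetSum_apply, ENNReal.ofReal_sum_of_nonneg fun q _ => wt_nonneg _ _ _ _ _ _]
      refine Finset.sum_congr rfl fun q _ => ?_
      simp
    rw [h2]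
    refine ENNReal.ofReal_le_ofReal ?_
    have h3 : ((∑ q ∈ Finset.Icc (-M n) (M n) ×ˢ Finset.Icc (-M n) (M n),
        wt c hR ρ X (n + 1) q : ℝ) : ℂ) = ∫ V, ⟪X V (dl 0), Sn c hR (n + 1) (M n) 0 V
          (X V (Sn c hR (n + 1) (M n) 0 V (dl 0)))⟫_ℂ ∂P := by
      rw [← h1]
      push_cast
      refine Finset.sum_congr rfl fun q _ => ?_
      simp
    have h4 : ‖∫ V, ⟪X V (dl 0), Sn c hR (n + 1) (M n) 0 V
          (X V (Sn c hR (n + 1) (M n) 0 V (dl 0)))⟫_ℂ ∂P‖ ≤ C * C := by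
      have := norm_integral_le_of_norm_le_const (μ := P) (C := C * C)
        (f := fun V => ⟪X V (dl 0), Sn c hR (n + 1) (M n) 0 V
          (X V (Sn c hR (n + 1) (M n) 0 V (dl 0)))⟫_ℂ) (Eventually.of_forall fun V => ?_)
      · simpa using this
      · refine (norm_inner_le_norm _ _).trans (mul_le_mul (hxn V) ?_ (norm_nonneg _) hC0)
        calc ‖Sn c hR (n + 1) (M n) 0 V (X V (Sn c hR (n + 1) (M n) 0 V (dl 0)))‖
            ≤ 1 * ‖X V (Sn c hR (n + 1) (M n) 0 V (dl 0))‖ :=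
              ContinuousLinearMap.le_of_opNorm_le _ (Sn_le c hR (hM n) 0 V) _
          _ ≤ 1 * (C * ‖Sn c hR (n + 1) (M n) 0 V (dl 0)‖) := by
              gcongr
              exact ContinuousLinearMap.le_of_opNorm_le _ (hC V) _
          _ ≤ 1 * (C * (1 * ‖(dl 0 : L2 (Site d))‖)) := by
              gcongr
              exact ContinuousLinearMap.le_of_opNorm_le _ (Sn_le c hR (hM n) 0 V) _
          _ = C := by rw [hd0]; ring
    rw [← h3, Complex.norm_real, Real.norm_eq_abs] at h4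
    exact (le_abs_self _).trans h4
  · -- the support
    intro n
    unfold mn
    rw [Measure.finsetSum_apply]
    refine Finset.sum_eq_zero fun q hq => ?_
    rw [Measure.smul_apply, Measure.dirac_apply' _
      ((measurableSet_Icc.prod measurableSet_Icc).compl), Set.indicator_of_notMem, smul_zero]
    rw [Set.mem_compl_iff, not_not]
    rw [Finset.mem_product, Finset.mem_Icc, Finset.mem_Icc] at hq
    have hn0 : (0 : ℝ) < ((n + 1 : ℕ) : ℝ) := by positivity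
    have hn1 : (1 : ℝ) ≤ ((n + 1 : ℕ) : ℝ) := by exact_mod_cast Nat.le_add_left 1 n
    have hMn : ((M n : ℤ) : ℝ) ≤ ((n + 1 : ℕ) : ℝ) * (B + 2) := by
      have h1 : (⌈((n + 1 : ℕ) : ℝ) * B⌉ : ℝ) < ((n + 1 : ℕ) : ℝ) * B + 1 := Int.ceil_lt_add_one _
      show ((⌈((n + 1 : ℕ) : ℝ) * B⌉ + 1 : ℤ) : ℝ) ≤ _
      push_cast at h1 hn1 ⊢
      nlinarith
    have key : ∀ j : ℤ, -M n ≤ j → j ≤ M n → nd (n + 1) j ∈ Set.Icc (-(B + 2)) (B + 2) := by
      intro j h1 h2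
      have h3 : (j : ℝ) ≤ M n := by exact_mod_cast h2
      have h4 : -((M n : ℤ) : ℝ) ≤ (j : ℝ) := by exact_mod_cast h1
      unfold nd
      constructor
      · rw [le_div_iff₀ hn0]
        linarith
      · rw [div_le_iff₀ hn0]
        linarith
    exact ⟨key _ hq.1.1 hq.1.2, key _ hq.2.1 hq.2.2⟩
  · -- the convergence
    intro s t
    have hcv : ∀ a : ℝ, Cv fun V : Site d → ℝ => (ev V).U a := fun a =>
      cvU (p := fun r : ℝ => r) hev continuous_id a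
    have hlint : Integrable (fun V => ⟪X V (dl 0),
        (ev V).U (-s) (X V ((ev V).U (-t) (dl 0)))⟫_ℂ) P :=
      int_inner hX ((hcv (-s)).comp (hX.comp (hcv (-t)))) ρ
    rw [tendsto_iff_norm_sub_tendsto_zero]
    have hlim : Tendsto (fun n : ℕ => C * (C * (|t| / ((n + 1 : ℕ) : ℝ)) +
        |s| / ((n + 1 : ℕ) : ℝ) * C)) atTop (𝓝 0) := by
      have h0 : ∀ a : ℝ, Tendsto (fun n : ℕ => a / ((n + 1 : ℕ) : ℝ)) atTop (𝓝 0) := fun a =>
        (tendsto_add_atTop_iff_nat 1).2 (tendsto_const_div_atTop_nhds_zero_nat a)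
      have := (((h0 |t|).const_mul C).add ((h0 |s|).mul_const C)).const_mul C
      simpa using this
    refine squeeze_zero (fun _ => norm_nonneg _) (fun n => ?_) hlim
    have h1 := mn_fourier c hR ρ hX (n + 1) (M n) s t
    rw [h1.2, ← integral_sub h1.1 hlint]
    have h2 := norm_integral_le_of_norm_le_const (μ := P)
      (C := C * (C * (|t| / ((n + 1 : ℕ) : ℝ)) + |s| / ((n + 1 : ℕ) : ℝ) * C))
      (f := fun V => ⟪X V (dl 0), Sn c hR (n + 1) (M n) s V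
          (X V (Sn c hR (n + 1) (M n) t V (dl 0)))⟫_ℂ -
          ⟪X V (dl 0), (ev V).U (-s) (X V ((ev V).U (-t) (dl 0)))⟫_ℂ) ?_
    · simpa using h2
    · filter_upwards [hgood] with V hV
      exact near_inner (X V) (Sn c hR (n + 1) (M n) s V) (Sn c hR (n + 1) (M n) t V)
        ((ev V).U (-s)) ((ev V).U (-t)) hC0 (hxn V) (hC V) hd0 (Sn_le c hR (hM n) s V)
        (fun y => (ev V).norm' _ y) (fun y => Sn_near c hR (Nat.succ_pos n) (hM n) s hev hV y)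
        (fun y => Sn_near c hR (Nat.succ_pos n) (hM n) t hev hV y) (by positivity)

end Pool.Agent.Helper83.Cc
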