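import Pool.Agent.Helper26.Cc.Stm

/-! # From the annealed to the quenched separation (package SEP2 of helper26, not a result) -/

set_option autoImplicit false

open MeasureTheory Filter Topology ProbabilityTheory
open scoped BigOperators ENNReal NNReal InnerProductSpace ComplexConjugate

namespace Pool.Agent.Helper83.Cc

open Pool.Agent.H5R2.NB Pool.Agent.Helper26.Nb Pool.Agent.Helper26.Cm Pool.Agent.Helper26.Dj
  Pool.Agent.Helper26.Rg Pool.Agent.Helper26.Cc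
open Pool.Agent.TH369.AN (Rz pt ro cp fc)
open Pool.Agent.TH369.MU (zk ep)

/-- ANN: the annealed form of `S_Sep` -/
def S_Ann : Prop :=
  ∀ (d : ℕ) (c : ℝ) (R : ℝ) (hR : 0 ≤ R) (ρ : Measure ℝ), IsProbabilityMeasure ρ →
    ∀ D : ℝ≥0, ρ ≤ D • (volume : Measure ℝ) → (∀ᵐ κ ∂ρ, |κ| ≤ R) →
      ∀ (h f g : ℝ → ℝ), Cur h f g → ∀ L η : ℝ, 0 < η → ∃ δ : ℝ, 0 < δ ∧ ∀ k : ℕ,
        ((volume.restrict (Set.Icc (-L) L)).prod (Measure.infinitePi fun _ : Site d => ρ))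
          {p : ℝ × (Site d → ℝ) |
            ‖wf (TC c hR (Function.update p.2 0 0)) (dl 0) (zc f g p.1 k) -
              wf (TC c hR (Function.update p.2 0 0)) (dl 0) (zk p.1 k)‖ < δ} ≤ ENNReal.ofReal η

section abs

variable {Ω : Type} [MeasurableSpace Ω] (P : Measure Ω) [IsProbabilityMeasure P]

/-- Markov's inequality for the slices of a set (not necessarily measurable) -/
lemma slices (L : ℝ) (A : Set (ℝ × Ω)) {a b : ℝ≥0∞} (ha : a ≠ 0) (ha' : a ≠ ∞)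
    (hA : ((volume.restrict (Set.Icc (-L) L)).prod P) A ≤ b) :
    P {V | a < volume {E : ℝ | E ∈ Set.Icc (-L) L ∧ (E, V) ∈ A}} ≤ b / a := by
  set ν : Measure ℝ := volume.restrict (Set.Icc (-L) L) with hν
  set A' : Set (ℝ × Ω) := toMeasurable (ν.prod P) A with hA'
  have hm : MeasurableSet A' := measurableSet_toMeasurable _ _
  have h1 : (ν.prod P) A' ≤ b := by rw [hA', measure_toMeasurable]; exact hA
  have h2 : (ν.prod P) A' = ∫⁻ V, ν ((fun E => (E, V)) ⁻¹' A') ∂P := Measure.prod_apply_symm hm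
  have h3 : Measurable fun V => ν ((fun E => (E, V)) ⁻¹' A') := measurable_measure_prodMk_right hm
  have h4 : {V | a < volume {E : ℝ | E ∈ Set.Icc (-L) L ∧ (E, V) ∈ A}} ⊆
      {V | a ≤ ν ((fun E => (E, V)) ⁻¹' A')} := by
    intro V hV
    simp only [Set.mem_ofPred_eq] at hV ⊢
    refine hV.le.trans ?_
    rw [hν, Measure.restrict_apply (measurable_prodMk_right hm)]
    apply measure_mono
    rintro E ⟨hE, hEA⟩
    exact ⟨subset_toMeasurable _ _ hEA, hE⟩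
  refine (measure_mono h4).trans ?_
  rw [ENNReal.le_div_iff_mul_le (Or.inl ha) (Or.inl ha'), mul_comm]
  refine (mul_meas_ge_le_lintegral h3 a).trans ?_
  rw [← h2]
  exact h1

/-- sets which contain a point for all large indices -/
lemma liminf_le (A : ℕ → Set Ω) {b : ℝ≥0∞} (hA : ∀ k, P (A k) ≤ b) :
    P {V | ∀ᶠ k in atTop, V ∈ A k} ≤ b := by
  have h1 : {V | ∀ᶠ k in atTop, V ∈ A k} = ⋃ n : ℕ, ⋂ k ≥ n, A k := by
    ext V
    simp [eventually_atTop]
  have hmono : Monotone fun n : ℕ => ⋂ k ≥ n, A k := by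
    intro m n hmn V hV
    simp only [ge_iff_le, Set.mem_iInter] at hV ⊢
    exact fun k hk => hV k (hmn.trans hk)
  rw [h1, hmono.measure_iUnion]
  refine iSup_le fun n => (measure_mono ?_).trans (hA n)
  intro V hV
  simp only [ge_iff_le, Set.mem_iInter] at hV
  exact hV n le_rfl

theorem quenched (B : ℕ → ℝ → Set (ℝ × Ω))
    (hmono : ∀ k, Monotone (B k))
    (hB : ∀ L η : ℝ, 0 < η → ∃ δ : ℝ, 0 < δ ∧ ∀ k : ℕ,
      ((volume.restrict (Set.Icc (-L) L)).prod P) (B k δ) ≤ ENNReal.ofReal η)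
    (Mk : ℕ → ℕ) :
    ∀ᵐ V ∂P, ∃ φ : ℕ → ℕ, StrictMono φ ∧ ∀ L η : ℝ, 0 < η → ∃ δ : ℝ, 0 < δ ∧ ∀ᶠ k in atTop,
      volume {E : ℝ | E ∈ Set.Icc (-L) L ∧ (E, V) ∈ B (Mk (φ k)) δ} ≤ ENNReal.ofReal η := by
  choose δ hδ hδB using fun i : ℕ => hB (i : ℝ) ((1 / 8 : ℝ) ^ i) (by positivity)
  set C : ℕ → ℕ → Set Ω := fun i k =>
    {V | ENNReal.ofReal ((1 / 2 : ℝ) ^ i) <
      volume {E : ℝ | E ∈ Set.Icc (-(i : ℝ)) i ∧ (E, V) ∈ B (Mk k) (δ i)}} with hC
  have hCm : ∀ i k, P (C i k) ≤ ENNReal.ofReal ((1 / 4 : ℝ) ^ i) := by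
    intro i k
    have h1 := slices P (i : ℝ) (B (Mk k) (δ i)) (a := ENNReal.ofReal ((1 / 2 : ℝ) ^ i))
      (b := ENNReal.ofReal ((1 / 8 : ℝ) ^ i)) (by
        rw [Ne, ENNReal.ofReal_eq_zero, not_le]; positivity) ENNReal.ofReal_ne_top (hδB i (Mk k))
    refine h1.trans (le_of_eq ?_)
    rw [← ENNReal.ofReal_div_of_pos (by positivity), ← div_pow]
    norm_num
  set A : ℕ → ℕ → Set Ω := fun J k => ⋃ i : ℕ, C (J + i) k with hA
  have hAm : ∀ J k, P (A J k) ≤ ENNReal.ofReal (2 * (1 / 4 : ℝ) ^ J) := by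
    intro J k
    refine (measure_iUnion_le _).trans ?_
    have hs : Summable fun i : ℕ => (1 / 4 : ℝ) ^ (J + i) := by
      simp_rw [pow_add]
      exact (summable_geometric_of_lt_one (by norm_num) (by norm_num)).mul_left _
    refine (ENNReal.tsum_le_tsum fun i => hCm (J + i) k).trans ?_
    rw [← ENNReal.ofReal_tsum_of_nonneg (fun i => by positivity) hs]
    apply ENNReal.ofReal_le_ofReal
    simp_rw [pow_add]
    rw [tsum_mul_left, tsum_geometric_of_lt_one (by norm_num) (by norm_num)]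
    have : (0 : ℝ) < (1 / 4) ^ J := by positivity
    nlinarith
  set N : ℕ → Set Ω := fun J => {V | ∀ᶠ k in atTop, V ∈ A J k} with hN
  have hNm : ∀ J, P (N J) ≤ ENNReal.ofReal (2 * (1 / 4 : ℝ) ^ J) := fun J =>
    liminf_le P (A J) (hAm J)
  have hzero : P (⋂ J, N J) = 0 := by
    have hlim : Tendsto (fun J : ℕ => ENNReal.ofReal (2 * (1 / 4 : ℝ) ^ J)) atTop (𝓝 0) := by
      rw [← ENNReal.ofReal_zero]
      apply ENNReal.tendsto_ofReal
      have := (tendsto_pow_atTop_nhds_zero_of_lt_one (r := (1 / 4 : ℝ)) (by norm_num)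
        (by norm_num)).const_mul 2
      rwa [mul_zero] at this
    apply le_antisymm _ zero_le
    exact ge_of_tendsto' hlim fun J => (measure_mono (Set.iInter_subset _ J)).trans (hNm J)
  have hae : ∀ᵐ V ∂P, V ∉ ⋂ J, N J := measure_eq_zero_iff_ae_notMem.1 hzero
  filter_upwards [hae] with V hV
  rw [Set.mem_iInter, not_forall] at hV
  obtain ⟨J, hJ⟩ := hV
  have hfr : ∃ᶠ k in atTop, V ∉ A J k := by
    rw [hN, Set.mem_ofPred_eq] at hJ
    exact not_eventually.1 hJ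
  obtain ⟨φ, hφ, hφA⟩ := extraction_of_frequently_atTop hfr
  refine ⟨φ, hφ, fun L η hη => ?_⟩
  obtain ⟨i1, hi1⟩ := exists_nat_ge L
  obtain ⟨i2, hi2⟩ := exists_pow_lt_of_lt_one hη (by norm_num : (1 / 2 : ℝ) < 1)
  set i := J + (i1 + i2) with hi
  refine ⟨δ i, hδ i, Eventually.of_forall fun k => ?_⟩
  have h1 : V ∉ C i (φ k) := by
    intro h
    exact hφA k (Set.mem_iUnion.2 ⟨i1 + i2, h⟩)
  rw [hC, Set.mem_ofPred_eq, not_lt] at h1
  have hiL : L ≤ (i : ℝ) := hi1.trans (by rw [hi]; push_cast; linarith [Nat.cast_nonneg (α := ℝ) J, Nat.cast_nonneg (α := ℝ) i2])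
  calc volume {E : ℝ | E ∈ Set.Icc (-L) L ∧ (E, V) ∈ B (Mk (φ k)) (δ i)}
      ≤ volume {E : ℝ | E ∈ Set.Icc (-(i : ℝ)) i ∧ (E, V) ∈ B (Mk (φ k)) (δ i)} := by
        apply measure_mono
        rintro E ⟨⟨hE1, hE2⟩, hEB⟩
        exact ⟨⟨by linarith, by linarith⟩, hEB⟩
    _ ≤ ENNReal.ofReal ((1 / 2 : ℝ) ^ i) := h1
    _ ≤ ENNReal.ofReal η := by
        apply ENNReal.ofReal_le_ofReal
        refine le_trans ?_ hi2.le
        exact pow_le_pow_of_le_one (by norm_num) (by norm_num) (by omega)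

end abs

/-- SEP from ANN -/
theorem sep2 : S_Ann → S_Sep := by
  intro H d c R hR ρ hρ D hD hb h f g hC Mk _
  have h1 := quenched (Measure.infinitePi fun _ : Site d => ρ)
    (fun k δ => {p : ℝ × (Site d → ℝ) |
      ‖wf (TC c hR (Function.update p.2 0 0)) (dl 0) (zc f g p.1 k) -
        wf (TC c hR (Function.update p.2 0 0)) (dl 0) (zk p.1 k)‖ < δ})
    (fun k a b hab p hp => lt_of_lt_of_le hp hab)
    (H d c R hR ρ hρ D hD hb h f g hC) Mk
  exact h1

end Pool.Agent.Helper83.Cc
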